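import Pool.Agent.AEC.StmtsB

/-!
# Squad AEC, row CN3: counting small substructures
-/

open FirstOrder FirstOrder.Language Cardinal Set

universe u

namespace Pool.Agent.AEC.H60

theorem cn3 : Cn3Stmt.{u} := by
  intro L M _ χ _ hM hp
  have h1 : #{S : L.Substructure M // #S ≤ χ} ≤ #{t : Set M // #t ≤ χ} := by
    refine Cardinal.mk_le_of_injective
      (f := fun S : {S : L.Substructure M // #S ≤ χ} => (⟨(S.1 : Set M), S.2⟩ :
        {t : Set M // #t ≤ χ})) ?_
    intro S T h
    have h2 : (S.1 : Set M) = (T.1 : Set M) := congrArg Subtype.val h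
    exact Subtype.ext (SetLike.coe_injective h2)
  refine h1.trans ((Cardinal.mk_bounded_set_le M χ).trans ?_)
  rw [max_eq_left hM, hp]

end Pool.Agent.AEC.H60
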