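import Pool.Agent.AEC.StmtsB

/-!
# Squad AEC, row CN2: counting directions
-/

open FirstOrder FirstOrder.Language Cardinal Set

universe u

namespace Pool.Agent.AEC.H60

theorem cn2 (cn1 : Cn1Stmt.{u}) : Cn2Stmt.{u} := by
  intro L κ K E A X hκ hA
  have hX : ℵ₀ ≤ #X := K.aleph0_le.trans hκ
  have h1 : ∀ j : LO X, #(K.Hom A (E.obj j.s)) ≤ 2 ^ #X := by
    intro j
    have h2 : #(K.Hom A (E.obj j.s)) ≤ #(A.α → (E.obj j.s).α) :=
      Cardinal.mk_le_of_injective (f := fun h : K.Hom A (E.obj j.s) => fun x => h x)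
        (fun f g h => AEC.Hom.ext (fun x => congrFun h x))
    refine h2.trans ?_
    rw [← Cardinal.power_def, ← Cardinal.power_self_eq hX]
    have h3 : #(E.obj j.s).α ≤ #X := by
      refine (E.card_le j.s).trans ?_
      exact Cardinal.add_le_of_le hX (Cardinal.mk_set_le j.s) hκ
    refine (Cardinal.power_le_power_right h3).trans ?_
    exact Cardinal.power_le_power_left (Cardinal.aleph0_pos.trans_le hX).ne' hA
  have h4 : #(E.Sg A X) = Cardinal.sum (fun j : LO X => #(K.Hom A (E.obj j.s))) :=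
    Cardinal.mk_sigma _
  rw [h4]
  refine (Cardinal.sum_le_sum _ (fun _ => 2 ^ #X) h1).trans ?_
  rw [Cardinal.sum_const']
  refine (mul_le_mul' (cn1 X hX) le_rfl).trans ?_
  rw [← Cardinal.power_add, Cardinal.add_eq_self hX]

end Pool.Agent.AEC.H60
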