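import Pool.Agent.AEC.StmtsZ

/-!
# Squad AEC, row DGE: the diagram determines the structure
-/

open FirstOrder FirstOrder.Language Cardinal Set

universe u

namespace Pool.Agent.AEC.H60

theorem mem_el {L : FirstOrder.Language.{u, u}} {Ω A : Type u} [L.Structure A] {φ : A → Ω}
    {x : Ω} : Fact.el x ∈ dg (L := L) A φ ↔ ∃ a, φ a = x := Iff.rfl

theorem mem_rel {L : FirstOrder.Language.{u, u}} {Ω A : Type u} [L.Structure A] {φ : A → Ω}
    {n : ℕ} {R : L.Relations n} {x : Fin n → Ω} : Fact.rel n R x ∈ dg (L := L) A φ ↔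
    ∃ y : Fin n → A, Structure.RelMap R y ∧ ∀ i, φ (y i) = x i := Iff.rfl

theorem mem_fn {L : FirstOrder.Language.{u, u}} {Ω A : Type u} [L.Structure A] {φ : A → Ω}
    {n : ℕ} {f : L.Functions n} {x : Fin n → Ω} {b : Ω} : Fact.fn n f x b ∈ dg (L := L) A φ ↔
    ∃ y : Fin n → A, (∀ i, φ (y i) = x i) ∧ φ (Structure.funMap f y) = b := Iff.rfl

theorem dge : DgeStmt.{u} := by
  intro L Ω A B _ _ φ ψ hφ hψ hd
  have h1 : ∀ a : A, ∃ b : B, ψ b = φ a := by
    intro a
    have h2 : Fact.el (φ a) ∈ dg (L := L) A φ := mem_el.2 ⟨a, rfl⟩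
    rw [hd] at h2
    exact mem_el.1 h2
  choose e he using h1
  have hbij : Function.Bijective e := by
    constructor
    · intro a a' h
      apply hφ
      rw [← he a, ← he a', h]
    · intro b
      have h2 : Fact.el (ψ b) ∈ dg (L := L) B ψ := mem_el.2 ⟨b, rfl⟩
      rw [← hd] at h2
      obtain ⟨a, ha⟩ := mem_el.1 h2
      exact ⟨a, hψ (by rw [he a, ha])⟩
  have hfun : ∀ {n : ℕ} (f : L.Functions n) (y : Fin n → A),
      e (Structure.funMap f y) = Structure.funMap f (e ∘ y) := by
    intro n f y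
    have h2 : Fact.fn n f (fun i => φ (y i)) (φ (Structure.funMap f y)) ∈ dg (L := L) A φ :=
      mem_fn.2 ⟨y, fun _ => rfl, rfl⟩
    rw [hd] at h2
    obtain ⟨y', hy, hy'⟩ := mem_fn.1 h2
    have h3 : y' = e ∘ y := by
      funext i
      apply hψ
      rw [hy i]
      exact (he (y i)).symm
    apply hψ
    rw [he, ← hy', h3]
  have hrel : ∀ {n : ℕ} (R : L.Relations n) (y : Fin n → A),
      Structure.RelMap R (e ∘ y) ↔ Structure.RelMap R y := by
    intro n R y
    constructor
    · intro h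
      have h2 : Fact.rel n R (fun i => φ (y i)) ∈ dg (L := L) B ψ :=
        mem_rel.2 ⟨e ∘ y, h, fun i => he (y i)⟩
      rw [← hd] at h2
      obtain ⟨y', hy, hy'⟩ := mem_rel.1 h2
      have h3 : y' = y := by
        funext i
        exact hφ (hy' i)
      rwa [h3] at hy
    · intro h
      have h2 : Fact.rel n R (fun i => φ (y i)) ∈ dg (L := L) A φ := mem_rel.2 ⟨y, h, fun _ => rfl⟩
      rw [hd] at h2
      obtain ⟨y', hy, hy'⟩ := mem_rel.1 h2
      have h3 : y' = e ∘ y := by
        funext i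
        apply hψ
        rw [hy' i]
        exact (he (y i)).symm
      rwa [h3] at hy
  exact ⟨{ toEquiv := Equiv.ofBijective e hbij
           map_fun' := fun f y => hfun f y
           map_rel' := fun R y => hrel R y }, he⟩

end Pool.Agent.AEC.H60
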