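import Pool.Agent.AEC.StmtsZ
import Pool.Agent.AEC.StmtsB

/-!
# Squad AEC, row ZCA: Theorem C (density of amalgamation bases, with an
Ehrenfeucht-Mostowski functor)
-/

open FirstOrder FirstOrder.Language Cardinal Set

universe u

namespace Pool.Agent.AEC.H60

theorem zca (ztg : ZtgStmt.{u}) (mxb : MxbStmt.{u}) (emb : EmbStmt.{u}) (spt : SptStmt.{u})
    (kbo : KboStmt.{u}) : ZcaStmt.{u} := by
  intro L κ K E hub M hκ
  by_contra hcon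
  have hc : ∀ (N : K.Mod) (_ : K.Hom M N), AEC.IsBase N →
      ¬ (AEC.IsMax N ∨ (2 : Cardinal.{u}) ^ #N.α = 2 ^ #M.α) :=
    fun N f hb h => hcon ⟨N, f, hb, h⟩
  have hmax : ∀ (N : K.Mod) (_ : K.Hom M N), ¬ AEC.IsMax N :=
    fun N f h => hc N f (mxb L κ K N h) (Or.inl h)
  have hM : ℵ₀ ≤ #M.α := K.aleph0_le.trans hκ
  have hcan : #M.α < 2 ^ #M.α := Cardinal.cantor _
  obtain ⟨θ, hθ, hmin⟩ : ∃ θ : Cardinal.{u}, (2 : Cardinal.{u}) ^ #M.α < 2 ^ θ ∧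
      ∀ μ < θ, (2 : Cardinal.{u}) ^ μ ≤ 2 ^ #M.α := by
    obtain ⟨θ, h1, h2⟩ := Cardinal.lt_wf.has_min
      {θ : Cardinal.{u} | (2 : Cardinal.{u}) ^ #M.α < 2 ^ θ} ⟨2 ^ #M.α, Cardinal.cantor _⟩
    exact ⟨θ, h1, fun μ hμ => not_lt.1 fun h3 => h2 μ h3 hμ⟩
  have hθM : #M.α < θ := by
    by_contra h
    exact absurd hθ (not_lt.2 (Cardinal.power_le_power_left two_ne_zero (not_lt.1 h)))
  have hθ2 : θ ≤ 2 ^ #M.α := by
    by_contra h
    exact absurd (hmin _ (not_le.1 h)) (not_le.2 (Cardinal.cantor _))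
  have hθ0 : ℵ₀ ≤ θ := hM.trans hθM.le
  obtain ⟨U, _, hU, hUW⟩ := kbo θ hθ0
  have hT : #(E.obj U).α ≤ 2 ^ #M.α := (E.card_le U).trans
    (Cardinal.add_le_of_le (hM.trans hcan.le) (hU.trans hθ2) (hκ.trans hcan.le))
  have hemb : ∀ (N : K.Mod) (_ : K.Hom M N), #N.α ≤ θ → Nonempty (K.Hom N (E.obj U)) := by
    intro N f hN
    obtain ⟨l, hl, hcat⟩ := hub (#N.α + κ)
    obtain ⟨g⟩ := emb L κ K E N (fun N' g => hmax N' (g.comp f)) l hl hcat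
    obtain ⟨s, hs, h, -⟩ := spt L κ K E N l.ord.ToType g
    have hsθ : #s ≤ θ := hs.trans (Cardinal.add_le_of_le hθ0 hN hθ0)
    obtain ⟨v⟩ := hUW s hsθ
    exact ⟨(E.map v).comp h⟩
  obtain ⟨N, f, hN, hb⟩ := ztg L κ K M (E.obj U) θ hM hθ hmin hT hemb
  exact hc N f hb (Or.inr (le_antisymm (hmin _ hN)
    (Cardinal.power_le_power_left two_ne_zero (Cardinal.mk_le_of_injective f.injective))))

end Pool.Agent.AEC.H60
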